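import Pool.Agent.Q16.BProd.Main

/-!
# The minimal (m,n)-product of Boolean algebras need not be the smallest one

For one and the same pair of countable factors, and for all infinite cardinals `n ≤ m` at once,
there is an `(m,n)`-product that has no `m`-homomorphism to the minimal `(m,n)`-product compatible
with the embeddings.
-/

open Cardinal Q16.BProd

namespace Pool.Agent.Results.MP_6fd33d_al.MinimalNotSmallest

/-- There are two countable non-degenerate Boolean algebras `A false`, `A true`, a Boolean algebra
`B` with embeddings `i`, and a Boolean algebra `M` with embeddings `j` such that for all infinite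
cardinals `n ≤ m`: `(j, M)` is a minimal `(m,n)`-product, `(i, B)` is an `(m,n)`-product, and no
minimal `(m,n)`-product is `≤ (i, B)`. -/
theorem result :
    ∃ (A : Bool → Type) (_ : ∀ t, BooleanAlgebra (A t)) (B : Type) (_ : BooleanAlgebra B)
      (i : ∀ t, BoundedLatticeHom (A t) B) (M : Type) (_ : BooleanAlgebra M)
      (j : ∀ t, BoundedLatticeHom (A t) M),
      (∀ t, Countable (A t)) ∧ (∀ t, Nontrivial (A t)) ∧
      ∀ m n : Cardinal.{0}, ℵ₀ ≤ n → n ≤ m →
        IsMinimal m n A M j ∧ IsProduct m n A B i ∧
        ∀ (M' : Type) (_ : BooleanAlgebra M') (j' : ∀ t, BoundedLatticeHom (A t) M'),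
          IsMinimal m n A M' j' → ¬ Below m j' i := by
  refine ⟨fun _ => Q16.BProd.A, inferInstance, Q16.BProd.B, inferInstance, iB, M0, inferInstance,
    jM, inferInstance, fun _ => ⟨⊤, ⊥, top_ne_bot_A⟩, ?_⟩
  intro m n hn hnm
  refine ⟨minimal_M hn hnm, prod_B (hn.trans hnm), ?_⟩
  intro M' _ j' hM'
  apply not_below (hn.trans hnm) j' (indep_of_zero hM'.toIsProductZero)
  intro b hb
  obtain ⟨T', a, c, _, hc, hc0, hcb⟩ := hM'.dense b hb
  exact dense_of_set hc hc0 hcb

end Pool.Agent.Results.MP_6fd33d_al.MinimalNotSmallest
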